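import Pool.Agent.H.MP_582e4a_co.B

namespace Pool.Agent.Results.MP_582e4a_co.Full

open Finset Matrix

/-- The matrix `E_θ` of the orthogonal projection of `ℝⁿ` onto the `θ`-eigenspace of `A`:
its column `v` is the projection of the standard basis vector `e_v`. -/
noncomputable def eigProj {n : ℕ} (A : Matrix (Fin n) (Fin n) ℝ) (θ : ℝ) :
    Matrix (Fin n) (Fin n) ℝ :=
  Matrix.of fun u v =>
    (Module.End.eigenspace (Matrix.toEuclideanLin A) θ).starProjection
      (EuclideanSpace.single v 1) u

/-- The average mixing matrix `∑_θ E_θ ∘ E_θ`, the sum running over the distinct eigenvalues. -/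
noncomputable def avgMix {n : ℕ} (A : Matrix (Fin n) (Fin n) ℝ) : Matrix (Fin n) (Fin n) ℝ :=
  ∑ θ ∈ (Matrix.finite_spectrum A).toFinset, eigProj A θ ⊙ eigProj A θ

open Pool.Agent.H.MP_582e4a_co

lemma eigProj_eq {n : ℕ} {G : SimpleGraph (Fin n)} [DecidableRel G.Adj] {U : Fin n → Fin n → ℝ}
    {l : Fin n → ℝ} (h : Eig G U l) (θ : ℝ) (v : Fin n) :
    eigProj (G.adjMatrix ℝ) θ v v = ∑ i, if l i = θ then U v i ^ 2 else 0 := by
  have hmem : ∀ w : EuclideanSpace ℝ (Fin n),
      w ∈ Module.End.eigenspace (Matrix.toEuclideanLin (G.adjMatrix ℝ)) θ ↔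
      ∀ u, ∑ x, G.adjMatrix ℝ u x * w x = θ * w u := fun w => by
    rw [Module.End.mem_eigenspace_iff, PiLp.ext_iff]
    rfl
  have := Submodule.eq_starProjection_of_mem_of_inner_eq_zero
    (K := Module.End.eigenspace (Matrix.toEuclideanLin (G.adjMatrix ℝ)) θ)
    (u := EuclideanSpace.single v (1 : ℝ))
    (v := WithLp.toLp 2 fun u => ∑ i, if l i = θ then U u i * U v i else 0) ?_ ?_
  · simp only [eigProj, of_apply, this, sq]
  · rw [hmem]
    intro u
    simp only [mul_sum]
    rw [sum_comm]
    refine sum_congr rfl fun i _ => ?_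
    split_ifs with e
    · simp only [← mul_assoc, ← sum_mul, h.eig, e]
    · simp
  · intro w hw
    rw [hmem] at hw
    have hc : ∀ i, l i ≠ θ → ∑ u, U u i * w u = 0 := fun i hi => by
      have e1 : ∑ u, U u i * ∑ x, G.adjMatrix ℝ u x * w x = l i * ∑ u, U u i * w u := by
        simp only [mul_sum]
        rw [sum_comm]
        refine sum_congr rfl fun x _ => ?_
        rw [← mul_assoc, ← h.eig, sum_mul]
        exact sum_congr rfl fun u _ => by rw [a_symm x u]; ring
      have e2 : ∑ u, U u i * ∑ x, G.adjMatrix ℝ u x * w x = θ * ∑ u, U u i * w u := by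
        simp only [hw, mul_sum]
        exact sum_congr rfl fun u _ => by ring
      rw [e1] at e2
      exact (mul_eq_zero.1 (show (l i - θ) * ∑ u, U u i * w u = 0 by linarith)).resolve_left
        (sub_ne_zero.2 hi)
    rw [inner_sub_left, EuclideanSpace.inner_single_left, PiLp.inner_apply, sub_eq_zero]
    simp only [map_one, one_mul, RCLike.inner_apply, conj_trivial, mul_sum]
    rw [h.expand (fun u => w u) v, sum_comm]
    refine sum_congr rfl fun i _ => ?_
    split_ifs with e
    · rw [mul_sum]; exact sum_congr rfl fun u _ => by ring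
    · simp [hc i e]

/-- Every connected graph on `n` vertices has `tr M̂_A ≤ (n² - 2n + 2)/n`. -/
theorem result (n : ℕ) (G : SimpleGraph (Fin n)) [DecidableRel G.Adj] (hG : G.Connected) :
    (avgMix (G.adjMatrix ℝ)).trace ≤ ((n : ℝ) ^ 2 - 2 * n + 2) / n := by
  have hA : (G.adjMatrix ℝ).IsHermitian := by
    ext u v
    simp [SimpleGraph.adjMatrix_apply, G.adj_comm]
  have h : Eig G (fun v i => hA.eigenvectorUnitary v i) hA.eigenvalues := by
    refine ⟨fun i j => ?_, fun u v => ?_, fun i v => ?_⟩
    · have := congrFun (congrFun (Unitary.coe_star_mul_self hA.eigenvectorUnitary) i) j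
      simpa [Matrix.mul_apply, Matrix.one_apply] using this
    · have := congrFun (congrFun (Unitary.coe_mul_star_self hA.eigenvectorUnitary) u) v
      simpa [Matrix.mul_apply, Matrix.one_apply] using this
    · exact congrFun (hA.mulVec_eigenvectorBasis i) v
  have := h.main hG
  rw [Fintype.card_fin] at this
  refine le_trans (le_of_eq ?_) this
  simp only [avgMix, Matrix.trace, Matrix.diag_apply, Matrix.sum_apply, hadamard_apply,
    eigProj_eq h]
  refine sum_congr rfl fun v _ => ?_
  simp only [sum_mul_sum]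
  rw [sum_comm]
  refine sum_congr rfl fun i _ => ?_
  rw [sum_comm]
  refine sum_congr rfl fun j _ => ?_
  rw [sum_eq_single (hA.eigenvalues i)]
  · by_cases e : hA.eigenvalues i = hA.eigenvalues j
    · simp [e]
    · simp [e, Ne.symm e]
  · intro θ _ hθ
    simp [Ne.symm hθ]
  · intro hh
    exact absurd ((Set.Finite.mem_toFinset _).2 (hA.eigenvalues_mem_spectrum_real i)) hh

end Pool.Agent.Results.MP_582e4a_co.Full
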